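import Mathlib
import Pool.Agent.Q88.QN.Coef

/-!
# Hypercyclicity of `1 + T` and of `e ^ T` for quasinilpotent `T`: neither implies the other
-/

set_option autoImplicit false

namespace Pool.Agent.Results.MP_4abaeb_an.BothDirectionsFail

open Filter Topology

variable {X : Type} [NormedAddCommGroup X] [InnerProductSpace ℂ X]

/-- `T` is quasinilpotent: `‖T ^ n‖ ^ (1 / n)` tends to zero (and the spectrum is `{0}`). -/
def Quasinilpotent (T : X →L[ℂ] X) : Prop :=
  Tendsto (fun n : ℕ => ‖T ^ n‖ ^ (1 / (n : ℝ))) atTop (𝓝 0) ∧ spectrum ℂ T = {0}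

/-- `S` is hypercyclic: some orbit is dense. -/
def Hypercyclic (S : X →L[ℂ] X) : Prop := ∃ x : X, Dense (Set.range fun n : ℕ => (S ^ n) x)

/-- On separable complex Hilbert spaces there are quasinilpotent operators `T` with `1 + T`
hypercyclic and `e ^ T` not hypercyclic, and quasinilpotent operators `T` with `e ^ T` hypercyclic
and `1 + T` not hypercyclic. -/
theorem result :
    (∃ (X : Type) (_ : NormedAddCommGroup X) (_ : InnerProductSpace ℂ X) (_ : CompleteSpace X)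
      (_ : TopologicalSpace.SeparableSpace X) (T : X →L[ℂ] X),
      Quasinilpotent T ∧ Hypercyclic (1 + T) ∧ ¬ Hypercyclic (NormedSpace.exp T)) ∧
    (∃ (X : Type) (_ : NormedAddCommGroup X) (_ : InnerProductSpace ℂ X) (_ : CompleteSpace X)
      (_ : TopologicalSpace.SeparableSpace X) (T : X →L[ℂ] X),
      Quasinilpotent T ∧ Hypercyclic (NormedSpace.exp T) ∧ ¬ Hypercyclic (1 + T)) := by
  constructor
  · obtain ⟨X, i1, i2, i3, i4, T, h1, h2, h3⟩ := Q88.QN.main' Q88.QN.lc Q88.QN.ec Q88.QN.lc_ent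
      Q88.QN.ec_ent (by rw [Q88.QN.lc_two, Q88.QN.ec_two]; norm_num)
    rw [Q88.QN.fop_lc] at h2
    rw [Q88.QN.fop_ec] at h3
    exact ⟨X, i1, i2, i3, i4, T, h1, h2, h3⟩
  · obtain ⟨X, i1, i2, i3, i4, T, h1, h2, h3⟩ := Q88.QN.main' Q88.QN.ec Q88.QN.lc Q88.QN.ec_ent
      Q88.QN.lc_ent (by rw [Q88.QN.lc_two, Q88.QN.ec_two]; norm_num)
    rw [Q88.QN.fop_ec] at h2
    rw [Q88.QN.fop_lc] at h3
    exact ⟨X, i1, i2, i3, i4, T, h1, h2, h3⟩

end Pool.Agent.Results.MP_4abaeb_an.BothDirectionsFail
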